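import Pool.Agent.helper71.PI.A1

/-! # PI, module A2: Bernstein tail bound -/

set_option autoImplicit false
set_option linter.unusedSectionVars false

namespace Pool.Agent.helper87.PI

open Finset

section A2

variable {ι α : Type} [Fintype ι] [DecidableEq ι] [Fintype α]

/-- expectation of a product of functions of the coordinates -/
theorem A2_prod (w : ι → α → ℝ) (g : ι → α → ℝ) :
    ∑ ω : ι → α, wt w ω * ∏ i, g i (ω i) = ∏ i, ∑ a, w i a * g i a := by
  have h := Finset.prod_univ_sum (fun _ : ι => (univ : Finset α)) (fun i a => w i a * g i a)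
  rw [Fintype.piFinset_univ] at h
  rw [h]
  refine Finset.sum_congr rfl fun ω _ => ?_
  unfold wt
  rw [← Finset.prod_mul_distrib]

theorem A2_exp {u : ℝ} (h : |u| ≤ 1) : Real.exp u ≤ 1 + u + u ^ 2 := by
  have h1 := Real.abs_exp_sub_one_sub_id_le h
  have h2 := (abs_le.1 h1).2
  linarith

/-- one-sided bound -/
theorem A2_one (w : ι → α → ℝ) (hw0 : ∀ i a, 0 ≤ w i a) (hw1 : ∀ i, ∑ a, w i a = 1)
    (D : Finset ι) (Z : ι → α → ℝ) (hZ0 : ∀ i ∈ D, ∑ a, w i a * Z i a = 0)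
    (b V f Λ : ℝ) (hb0 : 0 < b) (hb : ∀ i ∈ D, ∀ a, |Z i a| ≤ b)
    (hV : ∑ i ∈ D, ∑ a, w i a * Z i a ^ 2 ≤ V)
    (hΛ : 0 < Λ) (hf1 : 4 * Λ * V ≤ f ^ 2) (hf2 : 2 * Λ * b ≤ f) :
    A1_pr w {ω : ι → α | f < ∑ i ∈ D, Z i (ω i)} ≤ Real.exp (-Λ) := by
  have hf0 : 0 < f := lt_of_lt_of_le (by positivity) hf2
  obtain ⟨V', hV'1, hV'2, hV'0, hV'3⟩ : ∃ V' : ℝ, V ≤ V' ∧ f * b / 2 ≤ V' ∧ 0 < V' ∧
      4 * Λ * V' ≤ f ^ 2 := by
    refine ⟨max V (f * b / 2), le_max_left _ _, le_max_right _ _,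
      lt_of_lt_of_le (by positivity) (le_max_right _ _), ?_⟩
    rcases max_cases V (f * b / 2) with ⟨h, -⟩ | ⟨h, -⟩
    · rw [h]; exact hf1
    · rw [h]
      nlinarith
  obtain ⟨l, hl⟩ : ∃ l, l = f / (2 * V') := ⟨_, rfl⟩
  have hl0 : 0 < l := by rw [hl]; positivity
  have hlb : l * b ≤ 1 := by
    rw [hl, div_mul_eq_mul_div, div_le_one (by positivity)]
    linarith
  -- the exponential moment of one coordinate
  have hone : ∀ i ∈ D, ∑ a, w i a * Real.exp (l * Z i a) ≤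
      Real.exp (l ^ 2 * ∑ a, w i a * Z i a ^ 2) := by
    intro i hi
    have h1 : ∑ a, w i a * Real.exp (l * Z i a) ≤
        ∑ a, (w i a + l * (w i a * Z i a) + l ^ 2 * (w i a * Z i a ^ 2)) := by
      refine Finset.sum_le_sum fun a _ => ?_
      have h2 : |l * Z i a| ≤ 1 := by
        rw [abs_mul, abs_of_pos hl0]
        exact (mul_le_mul_of_nonneg_left (hb i hi a) hl0.le).trans hlb
      have h3 := mul_le_mul_of_nonneg_left (A2_exp h2) (hw0 i a)
      refine h3.trans (le_of_eq ?_)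
      ring
    rw [Finset.sum_add_distrib, Finset.sum_add_distrib, hw1, ← Finset.mul_sum, hZ0 i hi,
      ← Finset.mul_sum, mul_zero, add_zero] at h1
    refine h1.trans ?_
    have h4 := Real.add_one_le_exp (l ^ 2 * ∑ a, w i a * Z i a ^ 2)
    linarith
  have hprod : ∑ ω : ι → α, wt w ω * Real.exp (l * ∑ i ∈ D, Z i (ω i)) ≤ Real.exp (l ^ 2 * V') := by
    have h1 : ∀ ω : ι → α, Real.exp (l * ∑ i ∈ D, Z i (ω i)) =
        ∏ i, (if i ∈ D then Real.exp (l * Z i (ω i)) else 1) := by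
      intro ω
      rw [Finset.mul_sum, Real.exp_sum, Finset.prod_ite, Finset.prod_const_one, mul_one]
      refine Finset.prod_congr ?_ fun _ _ => rfl
      ext i
      simp
    calc ∑ ω : ι → α, wt w ω * Real.exp (l * ∑ i ∈ D, Z i (ω i))
        = ∑ ω : ι → α, wt w ω * ∏ i, (if i ∈ D then Real.exp (l * Z i (ω i)) else 1) :=
          Finset.sum_congr rfl fun ω _ => by rw [h1 ω]
      _ = ∏ i, ∑ a, w i a * (if i ∈ D then Real.exp (l * Z i a) else 1) :=
          A2_prod w (fun i a => if i ∈ D then Real.exp (l * Z i a) else 1)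
      _ ≤ ∏ i, (if i ∈ D then Real.exp (l ^ 2 * ∑ a, w i a * Z i a ^ 2) else 1) := by
          refine Finset.prod_le_prod (fun i _ => Finset.sum_nonneg fun a _ =>
            mul_nonneg (hw0 i a) (by split_ifs <;> positivity)) fun i _ => ?_
          by_cases hi : i ∈ D
          · simp only [if_pos hi]
            exact hone i hi
          · simp only [if_neg hi, mul_one]
            exact (hw1 i).le
      _ = Real.exp (∑ i ∈ D, l ^ 2 * ∑ a, w i a * Z i a ^ 2) := by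
          rw [Real.exp_sum, Finset.prod_ite, Finset.prod_const_one, mul_one]
          refine Finset.prod_congr ?_ fun _ _ => rfl
          ext i
          simp
      _ ≤ Real.exp (l ^ 2 * V') := by
          rw [← Finset.mul_sum]
          exact Real.exp_le_exp.2 (mul_le_mul_of_nonneg_left (hV.trans hV'1) (sq_nonneg l))
  have hmarkov : A1_pr w {ω : ι → α | f < ∑ i ∈ D, Z i (ω i)} ≤
      Real.exp (-(l * f)) * ∑ ω : ι → α, wt w ω * Real.exp (l * ∑ i ∈ D, Z i (ω i)) := by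
    unfold A1_pr
    rw [Finset.mul_sum]
    refine Finset.sum_le_sum fun ω _ => ?_
    have hnn : 0 ≤ Real.exp (-(l * f)) * (wt w ω * Real.exp (l * ∑ i ∈ D, Z i (ω i))) :=
      mul_nonneg (Real.exp_pos _).le (mul_nonneg (A1_wt_nonneg hw0 ω) (Real.exp_pos _).le)
    by_cases h : ω ∈ {ω : ι → α | f < ∑ i ∈ D, Z i (ω i)}
    · rw [Set.indicator_of_mem h]
      have h' : f < ∑ i ∈ D, Z i (ω i) := h
      have h1 : 1 ≤ Real.exp (-(l * f)) * Real.exp (l * ∑ i ∈ D, Z i (ω i)) := by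
        rw [← Real.exp_add]
        apply Real.one_le_exp
        nlinarith
      calc wt w ω = wt w ω * 1 := (mul_one _).symm
        _ ≤ wt w ω * (Real.exp (-(l * f)) * Real.exp (l * ∑ i ∈ D, Z i (ω i))) :=
            mul_le_mul_of_nonneg_left h1 (A1_wt_nonneg hw0 ω)
        _ = _ := by ring
    · rw [Set.indicator_of_notMem h]
      exact hnn
  refine hmarkov.trans ((mul_le_mul_of_nonneg_left hprod (Real.exp_pos _).le).trans ?_)
  rw [← Real.exp_add]
  apply Real.exp_le_exp.2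
  have h1 : -(l * f) + l ^ 2 * V' = -(f ^ 2 / (4 * V')) := by
    rw [hl]
    field_simp
    ring
  rw [h1]
  apply neg_le_neg
  rw [le_div_iff₀ (by positivity)]
  linarith

end A2

/-- Bernstein tail bound for a sum of independent centred bounded variables -/
theorem tail {ι α : Type} [Fintype ι] [DecidableEq ι] [Fintype α]
    (w : ι → α → ℝ) (hw0 : ∀ i a, 0 ≤ w i a) (hw1 : ∀ i, ∑ a, w i a = 1)
    (D : Finset ι) (Z : ι → α → ℝ) (hZ0 : ∀ i ∈ D, ∑ a, w i a * Z i a = 0)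
    (b V f Λ : ℝ) (hb0 : 0 < b) (hb : ∀ i ∈ D, ∀ a, |Z i a| ≤ b)
    (hV : ∑ i ∈ D, ∑ a, w i a * Z i a ^ 2 ≤ V)
    (hΛ : 0 < Λ) (hf1 : 4 * Λ * V ≤ f ^ 2) (hf2 : 2 * Λ * b ≤ f) :
    ∑ ω : ι → α, ({ω : ι → α | f < |∑ i ∈ D, Z i (ω i)|}).indicator (wt w) ω
      ≤ 2 * Real.exp (-Λ) := by
  have h1 := A2_one w hw0 hw1 D Z hZ0 b V f Λ hb0 hb hV hΛ hf1 hf2
  have h2 := A2_one w hw0 hw1 D (fun i a => -Z i a)
    (fun i hi => by
      have := hZ0 i hi
      simp only [mul_neg, Finset.sum_neg_distrib, this, neg_zero])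
    b V f Λ hb0 (fun i hi a => by rw [abs_neg]; exact hb i hi a)
    (by simpa only [neg_sq] using hV) hΛ hf1 hf2
  have h3 : ∑ ω : ι → α, ({ω : ι → α | f < |∑ i ∈ D, Z i (ω i)|}).indicator (wt w) ω ≤
      A1_pr w {ω : ι → α | f < ∑ i ∈ D, Z i (ω i)} +
        A1_pr w {ω : ι → α | f < ∑ i ∈ D, -Z i (ω i)} := by
    unfold A1_pr
    rw [← Finset.sum_add_distrib]
    refine Finset.sum_le_sum fun ω _ => ?_
    have hn1 : 0 ≤ ({ω : ι → α | f < ∑ i ∈ D, Z i (ω i)}).indicator (wt w) ω :=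
      Set.indicator_nonneg (fun ω _ => A1_wt_nonneg hw0 ω) ω
    have hn2 : 0 ≤ ({ω : ι → α | f < ∑ i ∈ D, -Z i (ω i)}).indicator (wt w) ω :=
      Set.indicator_nonneg (fun ω _ => A1_wt_nonneg hw0 ω) ω
    by_cases h : ω ∈ {ω : ι → α | f < |∑ i ∈ D, Z i (ω i)|}
    · rw [Set.indicator_of_mem h]
      have h' : f < |∑ i ∈ D, Z i (ω i)| := h
      rcases lt_abs.1 h' with h4 | h4
      · have h6 : ω ∈ {ω : ι → α | f < ∑ i ∈ D, Z i (ω i)} := h4
        have h5 : ({ω : ι → α | f < ∑ i ∈ D, Z i (ω i)}).indicator (wt w) ω = wt w ω :=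
          Set.indicator_of_mem h6 _
        linarith
      · have h6 : ω ∈ {ω : ι → α | f < ∑ i ∈ D, -Z i (ω i)} := by
          change f < ∑ i ∈ D, -Z i (ω i)
          rw [Finset.sum_neg_distrib]; exact h4
        have h5 : ({ω : ι → α | f < ∑ i ∈ D, -Z i (ω i)}).indicator (wt w) ω = wt w ω :=
          Set.indicator_of_mem h6 _
        linarith
    · rw [Set.indicator_of_notMem h]
      exact add_nonneg hn1 hn2
  linarith

end Pool.Agent.helper87.PI
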