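import Pool.Agent.helper87.PI.Defs

/-! # PI, module A1: the symmetric local lemma on finite product spaces -/

set_option autoImplicit false
set_option linter.unusedSectionVars false

namespace Pool.Agent.helper87.PI

open Finset

section A1

variable {ι α : Type} [Fintype ι] [DecidableEq ι] [Fintype α]

theorem A1_wt_nonneg {w : ι → α → ℝ} (hw0 : ∀ i a, 0 ≤ w i a) (ω : ι → α) : 0 ≤ wt w ω :=
  Finset.prod_nonneg fun i _ => hw0 i (ω i)

theorem A1_sum_wt {w : ι → α → ℝ} (hw1 : ∀ i, ∑ a, w i a = 1) : ∑ ω : ι → α, wt w ω = 1 := by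
  have h := Finset.prod_univ_sum (fun _ : ι => (univ : Finset α)) w
  rw [Fintype.piFinset_univ] at h
  unfold wt
  rw [← h]
  exact Finset.prod_eq_one fun i _ => hw1 i

/-- mixing two configurations -/
def A1_mix (D : Finset ι) (ω ω' : ι → α) : ι → α := fun i => if i ∈ D then ω i else ω' i

omit [Fintype α] in
theorem A1_wt_mix (w : ι → α → ℝ) (D : Finset ι) (ω ω' : ι → α) :
    wt w (A1_mix D ω ω') * wt w (A1_mix D ω' ω) = wt w ω * wt w ω' := by
  unfold wt A1_mix
  rw [← Finset.prod_mul_distrib, ← Finset.prod_mul_distrib]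
  refine Finset.prod_congr rfl fun i _ => ?_
  split_ifs
  · rfl
  · rw [mul_comm]

omit [Fintype ι] [Fintype α] in
theorem A1_mix_mix (D : Finset ι) (ω ω' : ι → α) :
    A1_mix D (A1_mix D ω ω') (A1_mix D ω' ω) = ω := by
  funext i
  unfold A1_mix
  split_ifs <;> rfl

/-- exchanging the coordinates outside `D` -/
def A1_equiv (D : Finset ι) : (ι → α) × (ι → α) ≃ (ι → α) × (ι → α) where
  toFun q := (A1_mix D q.1 q.2, A1_mix D q.2 q.1)
  invFun q := (A1_mix D q.1 q.2, A1_mix D q.2 q.1)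
  left_inv q := Prod.ext (A1_mix_mix D q.1 q.2) (A1_mix_mix D q.2 q.1)
  right_inv q := Prod.ext (A1_mix_mix D q.1 q.2) (A1_mix_mix D q.2 q.1)

/-- independence -/
theorem A1_indep {w : ι → α → ℝ} (hw1 : ∀ i, ∑ a, w i a = 1) (D : Finset ι)
    (f g : (ι → α) → ℝ) (hf : ∀ ω ω' : ι → α, (∀ i ∈ D, ω i = ω' i) → f ω = f ω')
    (hg : ∀ ω ω' : ι → α, (∀ i, i ∉ D → ω i = ω' i) → g ω = g ω') :
    ∑ ω, wt w ω * (f ω * g ω) = (∑ ω, wt w ω * f ω) * ∑ ω, wt w ω * g ω := by
  have h1 : ∑ ω, wt w ω * (f ω * g ω) =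
      ∑ q : (ι → α) × (ι → α), (wt w q.1 * (f q.1 * g q.1)) * wt w q.2 := by
    rw [Fintype.sum_prod_type]
    refine Finset.sum_congr rfl fun ω _ => ?_
    simp only
    rw [← Finset.mul_sum, A1_sum_wt hw1, mul_one]
  have h2 : (∑ ω, wt w ω * f ω) * ∑ ω, wt w ω * g ω =
      ∑ q : (ι → α) × (ι → α), (wt w q.1 * f q.1) * (wt w q.2 * g q.2) := by
    rw [Fintype.sum_prod_type, Finset.sum_mul_sum]
  rw [h1, h2, ← Equiv.sum_comp (A1_equiv D)]
  refine Finset.sum_congr rfl fun q _ => ?_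
  have e1 : f (A1_mix D q.1 q.2) = f q.1 := hf _ _ fun i hi => by
    unfold A1_mix; rw [if_pos hi]
  have e2 : g (A1_mix D q.1 q.2) = g q.2 := hg _ _ fun i hi => by
    unfold A1_mix; rw [if_neg hi]
  have e3 := A1_wt_mix w D q.1 q.2
  change (wt w (A1_mix D q.1 q.2) * (f (A1_mix D q.1 q.2) * g (A1_mix D q.1 q.2))) *
    wt w (A1_mix D q.2 q.1) = _
  rw [e1, e2]
  linear_combination (f q.1 * g q.2) * e3

/-- probability of a set -/
noncomputable def A1_pr (w : ι → α → ℝ) (B : Set (ι → α)) : ℝ := ∑ ω, B.indicator (wt w) ω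

theorem A1_pr_nonneg {w : ι → α → ℝ} (hw0 : ∀ i a, 0 ≤ w i a) (B : Set (ι → α)) :
    0 ≤ A1_pr w B :=
  Finset.sum_nonneg fun ω _ => Set.indicator_nonneg (fun ω _ => A1_wt_nonneg hw0 ω) ω

theorem A1_pr_mono {w : ι → α → ℝ} (hw0 : ∀ i a, 0 ≤ w i a) {B B' : Set (ι → α)} (h : B ⊆ B') :
    A1_pr w B ≤ A1_pr w B' :=
  Finset.sum_le_sum fun ω _ => Set.indicator_le_indicator_of_subset h (fun ω => A1_wt_nonneg hw0 ω) ω

theorem A1_pr_univ {w : ι → α → ℝ} (hw1 : ∀ i, ∑ a, w i a = 1) : A1_pr w Set.univ = 1 := by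
  unfold A1_pr
  simp only [Set.indicator_univ]
  exact A1_sum_wt hw1

theorem A1_pr_indep {w : ι → α → ℝ} (hw1 : ∀ i, ∑ a, w i a = 1) (D : Finset ι)
    (B B' : Set (ι → α)) (hB : ∀ ω ω' : ι → α, (∀ i ∈ D, ω i = ω' i) → (ω ∈ B ↔ ω' ∈ B))
    (hB' : ∀ ω ω' : ι → α, (∀ i, i ∉ D → ω i = ω' i) → (ω ∈ B' ↔ ω' ∈ B')) :
    A1_pr w (B ∩ B') = A1_pr w B * A1_pr w B' := by
  classical
  have h := A1_indep hw1 D (fun ω => if ω ∈ B then (1 : ℝ) else 0)
    (fun ω => if ω ∈ B' then (1 : ℝ) else 0)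
    (fun ω ω' h => by simp only [hB ω ω' h]) (fun ω ω' h => by simp only [hB' ω ω' h])
  unfold A1_pr
  convert h using 1
  · refine Finset.sum_congr rfl fun ω _ => ?_
    by_cases h1 : ω ∈ B <;> by_cases h2 : ω ∈ B' <;> simp [Set.indicator, h1, h2]
  · congr 1
    · refine Finset.sum_congr rfl fun ω _ => ?_
      by_cases h1 : ω ∈ B <;> simp [Set.indicator, h1]
    · refine Finset.sum_congr rfl fun ω _ => ?_
      by_cases h1 : ω ∈ B' <;> simp [Set.indicator, h1]

variable {J : Type} [DecidableEq J]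

/-- configurations avoiding the events in `T` -/
def A1_good (A : J → Set (ι → α)) (T : Finset J) : Set (ι → α) := {ω | ∀ j ∈ T, ω ∉ A j}

theorem A1_good_split {w : ι → α → ℝ} (hw0 : ∀ i a, 0 ≤ w i a) (A : J → Set (ι → α))
    (T T₁ T₂ : Finset J) (hT : T ⊆ T₁ ∪ T₂) :
    A1_pr w (A1_good A T₂) ≤ A1_pr w (A1_good A T) + ∑ i ∈ T₁, A1_pr w (A i ∩ A1_good A T₂) := by
  unfold A1_pr
  rw [Finset.sum_comm, ← Finset.sum_add_distrib]
  refine Finset.sum_le_sum fun ω _ => ?_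
  have hnn : ∀ B : Set (ι → α), 0 ≤ B.indicator (wt w) ω := fun B =>
    Set.indicator_nonneg (fun ω _ => A1_wt_nonneg hw0 ω) ω
  by_cases h1 : ω ∈ A1_good A T₂
  · rw [Set.indicator_of_mem h1]
    by_cases h2 : ω ∈ A1_good A T
    · rw [Set.indicator_of_mem h2]
      have := Finset.sum_nonneg (s := T₁) (f := fun i => (A i ∩ A1_good A T₂).indicator (wt w) ω)
        fun i _ => hnn _
      linarith
    · obtain ⟨i, hi, hiA⟩ : ∃ i ∈ T, ω ∈ A i := by
        by_contra h3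
        push Not at h3
        exact h2 h3
      have hi₁ : i ∈ T₁ := by
        rcases Finset.mem_union.1 (hT hi) with h | h
        · exact h
        · exact absurd hiA (h1 i h)
      have h3 : wt w ω ≤ ∑ i ∈ T₁, (A i ∩ A1_good A T₂).indicator (wt w) ω := by
        have h4 := Finset.single_le_sum (s := T₁)
          (f := fun i => (A i ∩ A1_good A T₂).indicator (wt w) ω) (fun i _ => hnn _) hi₁
        have h6 : ω ∈ A i ∩ A1_good A T₂ := ⟨hiA, h1⟩
        have h5 : (A i ∩ A1_good A T₂).indicator (wt w) ω = wt w ω := Set.indicator_of_mem h6 _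
        rw [h5] at h4
        exact h4
      have := hnn (A1_good A T)
      linarith
  · rw [Set.indicator_of_notMem h1]
    have h3 := Finset.sum_nonneg (s := T₁) (f := fun i => (A i ∩ A1_good A T₂).indicator (wt w) ω)
        fun i _ => hnn _
    have := hnn (A1_good A T)
    linarith

theorem A1_main {w : ι → α → ℝ} (hw0 : ∀ i a, 0 ≤ w i a) (hw1 : ∀ i, ∑ a, w i a = 1)
    [Fintype J] (D : J → Finset ι) (A : J → Set (ι → α))
    (hA : ∀ j (ω ω' : ι → α), (∀ i ∈ D j, ω i = ω' i) → (ω ∈ A j ↔ ω' ∈ A j))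
    (d : ℕ) (hd : ∀ j, (univ.filter (fun j' => j' ≠ j ∧ ¬ Disjoint (D j) (D j'))).card ≤ d)
    (p : ℝ) (hp : ∀ j, A1_pr w (A j) ≤ p) (hpd : 4 * p * ((d : ℝ) + 1) ≤ 1) (T : Finset J) :
    0 < A1_pr w (A1_good A T) ∧
      ∀ j, j ∉ T → A1_pr w (A j ∩ A1_good A T) ≤ 2 * p * A1_pr w (A1_good A T) := by
  induction T using Finset.strongInduction with
  | H T ih =>
  have hd0 : (0 : ℝ) ≤ d := Nat.cast_nonneg d
  have hp0 : ∀ _ : J, 0 ≤ p := fun j => (A1_pr_nonneg hw0 (A j)).trans (hp j)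
  have hpos : 0 < A1_pr w (A1_good A T) := by
    rcases T.eq_empty_or_nonempty with rfl | ⟨i, hi⟩
    · have h1 : A1_good A (∅ : Finset J) = Set.univ := by
        ext ω
        simp [A1_good]
      rw [h1, A1_pr_univ hw1]
      norm_num
    · have hss : T.erase i ⊂ T := Finset.erase_ssubset hi
      obtain ⟨h1, h2⟩ := ih _ hss
      have h3 := h2 i (Finset.notMem_erase i T)
      have h4 := A1_good_split hw0 A T {i} (T.erase i) (by
        rw [← Finset.insert_eq, Finset.insert_erase hi])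
      rw [Finset.sum_singleton] at h4
      have hp1 := hp0 i
      have hp2 : 4 * p ≤ 1 := by nlinarith
      nlinarith
  refine ⟨hpos, fun j hj => ?_⟩
  have hp1 := hp0 j
  set T₁ := T.filter (fun j' => ¬ Disjoint (D j) (D j')) with hT₁
  set T₂ := T.filter (fun j' => Disjoint (D j) (D j')) with hT₂
  have hT : T ⊆ T₁ ∪ T₂ := by
    intro i hi
    rw [Finset.mem_union, hT₁, hT₂, Finset.mem_filter, Finset.mem_filter]
    by_cases h : Disjoint (D j) (D i)
    · exact Or.inr ⟨hi, h⟩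
    · exact Or.inl ⟨hi, h⟩
  have hcard : (T₁.card : ℝ) ≤ d := by
    have h1 : T₁ ⊆ univ.filter (fun j' => j' ≠ j ∧ ¬ Disjoint (D j) (D j')) := by
      intro i hi
      rw [hT₁, Finset.mem_filter] at hi
      rw [Finset.mem_filter]
      refine ⟨Finset.mem_univ _, ?_, hi.2⟩
      rintro rfl
      exact hj hi.1
    exact_mod_cast (Finset.card_le_card h1).trans (hd j)
  have hsub : A1_good A T ⊆ A1_good A T₂ := by
    intro ω hω i hi
    rw [hT₂, Finset.mem_filter] at hi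
    exact hω i hi.1
  have hind : A1_pr w (A j ∩ A1_good A T₂) = A1_pr w (A j) * A1_pr w (A1_good A T₂) := by
    refine A1_pr_indep hw1 (D j) _ _ (hA j) ?_
    intro ω ω' h
    have key : ∀ i ∈ T₂, (ω ∈ A i ↔ ω' ∈ A i) := by
      intro i hi
      rw [hT₂, Finset.mem_filter] at hi
      refine hA i ω ω' fun k hk => h k fun hkj => ?_
      exact (Finset.disjoint_left.1 hi.2) hkj hk
    constructor
    · intro h1 i hi h2
      exact h1 i hi ((key i hi).2 h2)
    · intro h1 i hi h2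
      exact h1 i hi ((key i hi).1 h2)
  have h2 : A1_pr w (A1_good A T₂) ≤ 2 * A1_pr w (A1_good A T) := by
    rcases T₁.eq_empty_or_nonempty with h0 | ⟨i, hi⟩
    · have h1 : T ⊆ T₂ := by
        rw [h0, Finset.empty_union] at hT
        exact hT
      have h3 : A1_good A T₂ ⊆ A1_good A T := fun ω hω i hi => hω i (h1 hi)
      have := A1_pr_mono hw0 h3
      linarith
    · have hss : T₂ ⊂ T := by
        refine Finset.ssubset_iff_subset_ne.2 ⟨Finset.filter_subset _ _, ?_⟩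
        intro h1
        rw [hT₁, Finset.mem_filter] at hi
        have h3 := hi.1
        rw [← h1, hT₂, Finset.mem_filter] at h3
        exact hi.2 h3.2
      obtain ⟨h1, h3⟩ := ih _ hss
      have h4 := A1_good_split hw0 A T T₁ T₂ hT
      have h5 : ∑ i ∈ T₁, A1_pr w (A i ∩ A1_good A T₂) ≤ ∑ i ∈ T₁, 2 * p * A1_pr w (A1_good A T₂) := by
        refine Finset.sum_le_sum fun i hi => h3 i ?_
        intro h6
        rw [hT₁, Finset.mem_filter] at hi
        rw [hT₂, Finset.mem_filter] at h6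
        exact hi.2 h6.2
      rw [Finset.sum_const, nsmul_eq_mul] at h5
      have h6 : (T₁.card : ℝ) * (2 * p * A1_pr w (A1_good A T₂)) ≤
          (1 / 2) * A1_pr w (A1_good A T₂) := by
        have h7 : (T₁.card : ℝ) * (2 * p) ≤ 1 / 2 := by
          have h8 : (T₁.card : ℝ) * (2 * p) ≤ d * (2 * p) :=
            mul_le_mul_of_nonneg_right hcard (by linarith)
          nlinarith
        calc (T₁.card : ℝ) * (2 * p * A1_pr w (A1_good A T₂))
            = ((T₁.card : ℝ) * (2 * p)) * A1_pr w (A1_good A T₂) := by ring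
          _ ≤ _ := mul_le_mul_of_nonneg_right h7 h1.le
      linarith
  calc A1_pr w (A j ∩ A1_good A T) ≤ A1_pr w (A j ∩ A1_good A T₂) :=
        A1_pr_mono hw0 (Set.inter_subset_inter_right _ hsub)
    _ = A1_pr w (A j) * A1_pr w (A1_good A T₂) := hind
    _ ≤ p * A1_pr w (A1_good A T₂) := mul_le_mul_of_nonneg_right (hp j) (A1_pr_nonneg hw0 _)
    _ ≤ p * (2 * A1_pr w (A1_good A T)) := mul_le_mul_of_nonneg_left h2 hp1
    _ = 2 * p * A1_pr w (A1_good A T) := by ring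

end A1

/-- symmetric Lovász local lemma, finite product space, events determined by coordinates -/
theorem lll {ι α J : Type} [Fintype ι] [DecidableEq ι] [Fintype α] [Fintype J] [DecidableEq J]
    (w : ι → α → ℝ) (hw0 : ∀ i a, 0 ≤ w i a) (hw1 : ∀ i, ∑ a, w i a = 1)
    (D : J → Finset ι) (A : J → Set (ι → α))
    (hA : ∀ j (ω ω' : ι → α), (∀ i ∈ D j, ω i = ω' i) → (ω ∈ A j ↔ ω' ∈ A j))
    (d : ℕ) (hd : ∀ j, (univ.filter (fun j' => j' ≠ j ∧ ¬ Disjoint (D j) (D j'))).card ≤ d)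
    (p : ℝ) (hp : ∀ j, ∑ ω : ι → α, (A j).indicator (wt w) ω ≤ p)
    (hpd : 4 * p * ((d : ℝ) + 1) ≤ 1) :
    ∃ ω : ι → α, ∀ j, ω ∉ A j := by
  have h := (A1_main hw0 hw1 D A hA d hd p hp hpd univ).1
  by_contra hcon
  push Not at hcon
  have h1 : A1_good A (univ : Finset J) = ∅ := by
    ext ω
    refine ⟨fun h2 => ?_, fun h2 => absurd h2 (Set.notMem_empty ω)⟩
    obtain ⟨j, hj⟩ := hcon ω
    exact absurd hj (h2 j (Finset.mem_univ j))
  rw [h1] at h
  unfold A1_pr at h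
  simp at h

end Pool.Agent.helper87.PI
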